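import Pool.Agent.R502.TW.Main

/-!
The linear twist: `h q + M r` and `h q - M r`, `q` fixed, `r` a prime, as shifts of one integer.
-/

set_option autoImplicit false

open Finset Filter Topology

namespace Pool.Agent.R502.TQ

open Pool.Agent.H361R2.PP
open Pool.Agent.R526.AA
open Pool.Agent.R502.AQ
open Pool.Agent.R502.TW

/-- the twisted integer -/
def tq (X M q a₀ r : ℕ) : ℕ := M * r * inv X q + (X.factorial - 1) * a₀

theorem tq_inj {X M q a₀ : ℕ} (hM : 0 < M) (hq : 0 < q) : Function.Injective (tq X M q a₀) := by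
  intro a b hab
  unfold tq at hab
  have h0 : 0 < inv X q := by
    unfold inv
    positivity
  have h1 : M * a * inv X q = M * b * inv X q := by omega
  have h2 := Nat.eq_of_mul_eq_mul_right h0 h1
  exact Nat.eq_of_mul_eq_mul_left hM h2

/-- the class of the centre -/
theorem tq_cast {X M q a₀ r l : ℕ} (hl : l.Prime) (hX : l ≤ X) :
    ((tq X M q a₀ r + a₀ : ℕ) : ZMod l) = M * r * (inv X q : ZMod l) := by
  have hf : 1 ≤ X.factorial := Nat.factorial_pos X
  have h0 : ((X.factorial : ℕ) : ZMod l) = 0 :=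
    (ZMod.natCast_eq_zero_iff _ _).2 (Nat.dvd_factorial hl.pos hX)
  have h1 : tq X M q a₀ r + a₀ = M * r * inv X q + X.factorial * a₀ := by
    unfold tq
    obtain ⟨f, hf'⟩ : ∃ f, X.factorial = f + 1 := ⟨X.factorial - 1, by omega⟩
    rw [hf', Nat.add_sub_cancel]
    ring
  rw [h1]
  push_cast
  rw [h0]
  ring

theorem tq_pos {X M q a₀ r l h : ℕ} (hl : l.Prime) (hX : l ≤ X) (hq : ¬ l ∣ q) :
    l ∣ tq X M q a₀ r + (a₀ + h) ↔ l ∣ M * r + h * q := by
  have : Fact l.Prime := ⟨hl⟩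
  have h1 := inv_mul_cast hl hX hq
  have h2 := tq_cast (M := M) (a₀ := a₀) (q := q) (r := r) hl hX
  rw [← ZMod.natCast_eq_zero_iff, ← ZMod.natCast_eq_zero_iff, ← add_assoc]
  push_cast at h2 ⊢
  have hq0 : (q : ZMod l) ≠ 0 := by
    intro h
    exact hq ((ZMod.natCast_eq_zero_iff _ _).1 h)
  constructor
  · intro h3
    linear_combination (q : ZMod l) * h3 - (q : ZMod l) * h2 - M * r * h1
  · intro h3
    have h4 : (q : ZMod l) * ((tq X M q a₀ r : ZMod l) + a₀ + h) = 0 := by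
      linear_combination h3 + (q : ZMod l) * h2 + M * r * h1
    rcases mul_eq_zero.1 h4 with h5 | h5
    · exact absurd h5 hq0
    · exact h5

theorem tq_neg {X M q a₀ r l h : ℕ} (hl : l.Prime) (hX : l ≤ X) (hq : ¬ l ∣ q) (hh : h ≤ a₀) :
    l ∣ tq X M q a₀ r + (a₀ - h) ↔ h * q ≡ M * r [MOD l] := by
  have : Fact l.Prime := ⟨hl⟩
  have h1 := inv_mul_cast hl hX hq
  have h2 := tq_cast (M := M) (a₀ := a₀) (q := q) (r := r) hl hX
  rw [← ZMod.natCast_eq_zero_iff, ← ZMod.natCast_eq_natCast_iff]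
  push_cast [Nat.cast_sub hh] at h2 ⊢
  have hq0 : (q : ZMod l) ≠ 0 := by
    intro h
    exact hq ((ZMod.natCast_eq_zero_iff _ _).1 h)
  constructor
  · intro h3
    linear_combination (q : ZMod l) * h2 - (q : ZMod l) * h3 + M * r * h1
  · intro h3
    have h4 : (q : ZMod l) * ((tq X M q a₀ r : ZMod l) + (a₀ - h)) = 0 := by
      linear_combination (q : ZMod l) * h2 - h3 + M * r * h1
    rcases mul_eq_zero.1 h4 with h5 | h5
    · exact absurd h5 hq0
    · exact h5

open Classical in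
/-- the twist keeps the level of distribution -/
theorem tq_Eqd {X M q a₀ : ℕ} {P S : Finset ℕ} {Ω : ℝ} {Er : Finset ℕ → ℝ} (hM : 0 < M)
    (hq0 : 0 < q) (hP : ∀ l ∈ P, l.Prime ∧ l ≤ X ∧ ¬ l ∣ M ∧ ¬ l ∣ q) (h : Eqd (some 1) P S Ω Er) :
    Eqd (some a₀) P (S.image (fun n => tq X M q a₀ (n + 1))) Ω Er := by
  obtain ⟨h1, h2, h3⟩ := h
  have hf : 1 ≤ X.factorial := Nat.factorial_pos X
  have hinj : Function.Injective (fun n : ℕ => tq X M q a₀ (n + 1)) := by
    intro a b hab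
    have := tq_inj hM hq0 hab
    omega
  refine ⟨?_, h2, ?_⟩
  · intro n' hn' l hl a ha
    rw [mem_image] at hn'
    obtain ⟨n, hn, rfl⟩ := hn'
    rw [Option.mem_def, Option.some.injEq] at ha
    subst ha
    obtain ⟨hlp, hlX, hlM, hlq⟩ := hP l hl
    have hq : ¬ l ∣ n + 1 := h1 n hn l hl 1 rfl
    intro hd
    have := (tq_pos (M := M) (a₀ := a₀) (h := 0) hlp hlX hlq).1 hd
    rw [Nat.zero_mul, Nat.add_zero] at this
    rcases (hlp.dvd_mul).1 this with h5 | h5
    · exact hlM h5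
    · exact hq h5
  · intro D hD r hr
    have hrl : ∀ l ∈ D, ¬ l ∣ r + a₀ := fun l hl => hr l hl a₀ rfl
    obtain ⟨r', hr'⟩ : ∃ r', r' + 1 = (r + a₀) * q * inv X M + X.factorial :=
      ⟨(r + a₀) * q * inv X M + X.factorial - 1, by omega⟩
    have hr'c : ∀ l ∈ D, ((r' : ZMod l)) + 1 = (r + a₀) * q * (inv X M : ZMod l) := by
      intro l hl
      obtain ⟨hlp, hlX, hlM, hlq⟩ := hP l (hD hl)
      have h0 : ((X.factorial : ℕ) : ZMod l) = 0 :=
        (ZMod.natCast_eq_zero_iff _ _).2 (Nat.dvd_factorial hlp.pos hlX)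
      have h4 : ((r' + 1 : ℕ) : ZMod l) = (((r + a₀) * q * inv X M + X.factorial : ℕ) : ZMod l) := by
        rw [hr']
      push_cast at h4
      rw [h0, add_zero] at h4
      exact h4
    have hok : ∀ l ∈ D, ok (some 1) l r' := by
      intro l hl a ha
      rw [Option.mem_def, Option.some.injEq] at ha
      subst ha
      obtain ⟨hlp, hlX, hlM, hlq⟩ := hP l (hD hl)
      have : Fact l.Prime := ⟨hlp⟩
      intro hd
      have h4 := (ZMod.natCast_eq_zero_iff _ _).2 hd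
      push_cast at h4
      rw [hr'c l hl] at h4
      have h5 := inv_mul_cast hlp hlX hlM
      rcases mul_eq_zero.1 h4 with h6 | h6
      · rcases mul_eq_zero.1 h6 with h7 | h7
        · apply hrl l hl
          rw [← ZMod.natCast_eq_zero_iff]
          push_cast
          exact h7
        · exact hlq ((ZMod.natCast_eq_zero_iff _ _).1 h7)
      · rw [h6, zero_mul] at h5
        exact zero_ne_one h5
    have h4 := h3 D hD r' hok
    have h5 : ((S.image (fun n => tq X M q a₀ (n + 1))).filter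
        (fun n => ∀ p ∈ D, n % p = r % p)).card =
        (S.filter (fun n => ∀ p ∈ D, n % p = r' % p)).card := by
      rw [filter_image, card_image_of_injective _ hinj]
      congr 1
      apply filter_congr
      intro n hn
      apply forall₂_congr
      intro l hl
      obtain ⟨hlp, hlX, hlM, hlq⟩ := hP l (hD hl)
      have : Fact l.Prime := ⟨hlp⟩
      have e1 := inv_mul_cast hlp hlX hlM
      have e2 := inv_mul_cast hlp hlX hlq
      have e3 := tq_cast (M := M) (a₀ := a₀) (q := q) (r := n + 1) hlp hlX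
      have e4 := hr'c l hl
      change tq X M q a₀ (n + 1) ≡ r [MOD l] ↔ n ≡ r' [MOD l]
      rw [← ZMod.natCast_eq_natCast_iff, ← ZMod.natCast_eq_natCast_iff]
      push_cast at e1 e2 e3 e4 ⊢
      constructor
      · intro h6
        have h7 : M * ((n : ZMod l) + 1) * (inv X q : ZMod l) = (r : ZMod l) + a₀ := by
          rw [← e3, h6]
        have h8 : (n : ZMod l) + 1 = ((r : ZMod l) + a₀) * q * (inv X M : ZMod l) := by
          linear_combination (-((n : ZMod l) + 1) * (inv X q : ZMod l) * q) * e1 -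
            ((n : ZMod l) + 1) * e2 + q * (inv X M : ZMod l) * h7
        rw [← e4] at h8
        linear_combination h8
      · intro h6
        have h8 : (n : ZMod l) + 1 = ((r : ZMod l) + a₀) * q * (inv X M : ZMod l) := by
          rw [← e4, h6]
        have h7 : M * ((n : ZMod l) + 1) * (inv X q : ZMod l) = (r : ZMod l) + a₀ := by
          linear_combination M * (inv X q : ZMod l) * h8 +
            ((r : ZMod l) + a₀) * (inv X q : ZMod l) * q * e1 + ((r : ZMod l) + a₀) * e2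
        rw [← e3] at h7
        linear_combination h7
    rw [h5]
    exact h4

/-- all `h q + M r` and `h q - M r` with `h` in the block and divisible by the primes dividing `M`
have a prime factor at most `X` -/
def GQ (X M q l r i : ℕ) : Prop :=
  ∀ h : ℕ, i * l < h → h ≤ (i + 1) * l → (∀ t : ℕ, t.Prime → t ∣ M → t ∣ h) →
    (∃ t : ℕ, t.Prime ∧ t ≤ X ∧ ¬ t ∣ M ∧ t ∣ M * r + h * q) ∧
    (∃ t : ℕ, t.Prime ∧ t ≤ X ∧ ¬ t ∣ M ∧ h * q ≡ M * r [MOD t])

/-- product of the primes dividing a twisted position -/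
theorem tq_Sz {X M q a₀ : ℕ} {Dx : ℝ} (hM0 : 0 < M) (hM : M ≤ X) (ha₀ : a₀ ≤ X) (b : ℕ)
    (hq : ∀ t : ℕ, t.Prime → t ≤ X → ¬ t ∣ q) (hq1 : q = 1 ∨ 2 * X < q)
    (hDx : ((X * (2 * X) + X * q : ℕ) : ℝ) ≤ (X : ℝ) ^ Dx) :
    Sz ((SP X b 1).image (fun n => tq X M q a₀ (n + 1))) X Dx := by
  intro n' hn' a ha1 haX
  rw [mem_image] at hn'
  obtain ⟨n, hn, rfl⟩ := hn'
  rw [mem_SP] at hn
  have hp := hn.2.2.2
  have hPX : ∀ r ∈ PX X, r.Prime ∧ r ≤ X := by
    intro r hr
    rw [PX, mem_filter, mem_range] at hr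
    exact ⟨hr.2.1, by omega⟩
  have hr2 : M * (n + 1) ≤ X * (2 * X) := Nat.mul_le_mul hM (by omega)
  refine le_trans ?_ hDx
  rw [← Nat.cast_prod, Nat.cast_le]
  rcases Nat.lt_or_ge a a₀ with hc | hc
  · -- negative side
    obtain ⟨h, hh⟩ : ∃ h, a = a₀ - h ∧ 1 ≤ h ∧ h ≤ a₀ := ⟨a₀ - a, by omega, by omega, by omega⟩
    obtain ⟨rfl, hh1, hh2⟩ := hh
    have h3 : h * q ≤ X * q := Nat.mul_le_mul_right _ (by omega)
    have hne : h * q ≠ M * (n + 1) := by
      intro heq
      rcases hq1 with h1 | h1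
      · rw [h1, mul_one] at heq
        have : n + 1 ≤ M * (n + 1) := Nat.le_mul_of_pos_left _ hM0
        omega
      · have hq2 : q ≠ 1 := by omega
        obtain ⟨t, ht, htq⟩ := Nat.exists_prime_and_dvd hq2
        have h4 : q ∣ M * (n + 1) := ⟨h, by rw [← heq]; ring⟩
        have h5 : Nat.Coprime q M := by
          rw [Nat.coprime_iff_gcd_eq_one]
          by_contra hg
          obtain ⟨t, ht, htd⟩ := Nat.exists_prime_and_dvd hg
          have h6 := Nat.le_of_dvd hM0 (htd.trans (Nat.gcd_dvd_right _ _))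
          exact hq t ht (by omega) (htd.trans (Nat.gcd_dvd_left _ _))
        have h6 := Nat.le_of_dvd (by omega) (h5.dvd_of_dvd_mul_left h4)
        omega
    have h2 : ∀ r ∈ (PX X).filter (fun r => r ∣ tq X M q a₀ (n + 1) + (a₀ - h)),
        h * q ≡ M * (n + 1) [MOD r] := by
      intro r hr
      rw [mem_filter] at hr
      exact (tq_neg (hPX r hr.1).1 (hPX r hr.1).2 (hq r (hPX r hr.1).1 (hPX r hr.1).2) hh2).1 hr.2
    rcases Nat.lt_or_gt_of_ne hne with hlt | hlt
    · have h1 : ∏ r ∈ (PX X).filter (fun r => r ∣ tq X M q a₀ (n + 1) + (a₀ - h)), r ∣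
          M * (n + 1) - h * q := by
        apply Finset.prod_primes_dvd
        · intro r hr
          exact (hPX r (mem_filter.1 hr).1).1.prime
        · intro r hr
          exact (Nat.modEq_iff_dvd' hlt.le).1 (h2 r hr)
      have h4 := Nat.le_of_dvd (by omega) h1
      omega
    · have h1 : ∏ r ∈ (PX X).filter (fun r => r ∣ tq X M q a₀ (n + 1) + (a₀ - h)), r ∣
          h * q - M * (n + 1) := by
        apply Finset.prod_primes_dvd
        · intro r hr
          exact (hPX r (mem_filter.1 hr).1).1.prime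
        · intro r hr
          exact (Nat.modEq_iff_dvd' hlt.le).1 (h2 r hr).symm
      have h4 := Nat.le_of_dvd (by omega) h1
      omega
  · obtain ⟨h, rfl⟩ : ∃ h, a = a₀ + h := ⟨a - a₀, by omega⟩
    have h3 : h * q ≤ X * q := Nat.mul_le_mul_right _ (by omega)
    have h1 : ∏ r ∈ (PX X).filter (fun r => r ∣ tq X M q a₀ (n + 1) + (a₀ + h)), r ∣
        M * (n + 1) + h * q := by
      apply Finset.prod_primes_dvd
      · intro r hr
        exact (hPX r (mem_filter.1 hr).1).1.prime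
      · intro r hr
        rw [mem_filter] at hr
        exact (tq_pos (hPX r hr.1).1 (hPX r hr.1).2 (hq r (hPX r hr.1).1 (hPX r hr.1).2)).1 hr.2
    have h5 : 0 < M * (n + 1) := by positivity
    have h4 := Nat.le_of_dvd (by omega) h1
    omega

/-- the class of the positions -/
theorem exists_classQ (X M q b a₀ : ℕ) (hHX : HH X ≤ X)
    (hq : ∀ t : ℕ, t.Prime → t ≤ X → ¬ t ∣ q) :
    ∃ b' : ℕ, ∀ r : ℕ, r.Prime → r ∣ Wm X →
      (r ∣ M → b' + a₀ ≡ 1 [MOD r]) ∧
      (¬ r ∣ M → (b' + a₀) * q ≡ M * (b + 1) [MOD r]) := by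
  have hW := Wm_pos X
  obtain ⟨W', hW'⟩ : ∃ W', W' = ∏ r ∈ (range (HH X + 1)).filter (fun r => r.Prime ∧ ¬ r ∣ M), r :=
    ⟨_, rfl⟩
  have hco : Nat.Coprime M W' := by
    rw [hW', Nat.coprime_prod_right_iff]
    intro r hr
    rw [mem_filter] at hr
    exact ((Nat.Prime.coprime_iff_not_dvd hr.2.1).2 hr.2.2).symm
  obtain ⟨c, hc1, hc2⟩ := Nat.chineseRemainder hco 1 (M * (b + 1) * inv X q)
  refine ⟨c + (Wm X - 1) * a₀, fun r hr hrW => ?_⟩
  have hrH : r ≤ HH X := by
    unfold Wm at hrW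
    exact (Nat.Prime.dvd_primorial_iff hr).1 hrW
  have e1 : c + (Wm X - 1) * a₀ + a₀ = c + Wm X * a₀ := by
    obtain ⟨w, hw⟩ : ∃ w, Wm X = w + 1 := ⟨Wm X - 1, by omega⟩
    rw [hw, Nat.add_sub_cancel]
    ring
  have e2 : c + Wm X * a₀ ≡ c [MOD r] := by
    have : Wm X * a₀ ≡ 0 [MOD r] := (Nat.modEq_zero_iff_dvd).2 (hrW.mul_right _)
    simpa using this.add_left c
  rw [e1]
  constructor
  · intro hrM
    exact e2.trans (hc1.of_dvd hrM)
  · intro hrM
    have h3 : r ∣ W' := by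
      rw [hW']
      apply dvd_prod_of_mem
      rw [mem_filter, mem_range]
      exact ⟨by omega, hr, hrM⟩
    have h5 := inv_mul (X := X) hr (by omega) (hq r hr (by omega))
    calc (c + Wm X * a₀) * q ≡ c * q [MOD r] := e2.mul_right _
      _ ≡ M * (b + 1) * inv X q * q [MOD r] := (hc2.of_dvd h3).mul_right _
      _ = M * (b + 1) * (inv X q * q) := by ring
      _ ≡ M * (b + 1) * 1 [MOD r] := h5.mul_left _
      _ = M * (b + 1) := mul_one _

/-- from positions to linear forms -/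
theorem GQ_of {X M q l K i p b b' N : ℕ} (hHX : HH X ≤ X) (hi : i < K)
    (hN : K * l + 1 + (i + 1) * l ≤ N) (hPM : ∀ r ∈ PX X, ¬ r ∣ M)
    (hq : ∀ t : ℕ, t.Prime → t ≤ X → ¬ t ∣ q) (hpb : p ≡ b + 1 [MOD Wm X])
    (hb' : ∀ r : ℕ, r.Prime → r ∣ Wm X →
      (r ∣ M → b' + (K * l + 1) ≡ 1 [MOD r]) ∧
      (¬ r ∣ M → (b' + (K * l + 1)) * q ≡ M * (b + 1) [MOD r]))
    (hB : ∀ a ∈ BT X b' N l K i, ¬ Rf X (tq X M q (K * l + 1) p + a)) : GQ X M q l p i := by
  have e0 : (i + 1) * l ≤ K * l := Nat.mul_le_mul_right _ hi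
  intro h h1 h2 hMh
  have rough : ∀ a ∈ BT X b' N l K i, ∃ r : ℕ, r.Prime ∧ r ≤ X ∧ ¬ r ∣ M ∧
      r ∣ tq X M q (K * l + 1) p + a := by
    intro a ha
    have h3 := hB a ha
    unfold Rf at h3
    push Not at h3
    obtain ⟨r, hr1, hr2, hr3, hr4⟩ := h3
    refine ⟨r, hr1, hr3, hPM r ?_, hr4⟩
    rw [PX, mem_filter, mem_range]
    exact ⟨by omega, hr1, hr2⟩
  have small : ∀ a : ℕ, ¬ (b' + a).Coprime (Wm X) →
      ∃ r : ℕ, r.Prime ∧ r ∣ Wm X ∧ r ≤ X ∧ r ∣ b' + a := by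
    intro a ha
    obtain ⟨r, hr, hrd⟩ := Nat.exists_prime_and_dvd (show Nat.gcd (b' + a) (Wm X) ≠ 1 from ha)
    have h4 : r ∣ Wm X := hrd.trans (Nat.gcd_dvd_right _ _)
    refine ⟨r, hr, h4, ?_, hrd.trans (Nat.gcd_dvd_left _ _)⟩
    have h5 : r ≤ HH X := by
      unfold Wm at h4
      exact (Nat.Prime.dvd_primorial_iff hr).1 h4
    omega
  constructor
  · by_cases hc : (b' + (K * l + 1 + h)).Coprime (Wm X)
    · obtain ⟨r, hr1, hr2, hr3, hr4⟩ := rough (K * l + 1 + h)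
        ((mem_BT hi).2 ⟨mem_BB.2 ⟨by omega, by omega, hc⟩, h, h1, h2, Or.inl rfl⟩)
      exact ⟨r, hr1, hr2, hr3, (tq_pos hr1 hr2 (hq r hr1 hr2)).1 hr4⟩
    · obtain ⟨r, hr, hrW, hrX, hrd⟩ := small _ hc
      have hrM : ¬ r ∣ M := by
        intro hrM
        have h5 := (hb' r hr hrW).1 hrM
        have h6 : b' + (K * l + 1) + h ≡ 1 + 0 [MOD r] :=
          h5.add ((Nat.modEq_zero_iff_dvd).2 (hMh r hr hrM))
        have h7 : b' + (K * l + 1) + h ≡ 0 [MOD r] := (Nat.modEq_zero_iff_dvd).2 (by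
          rwa [add_assoc])
        have h8 : 1 ≡ 0 [MOD r] := h6.symm.trans h7
        exact hr.one_lt.ne' (Nat.dvd_one.1 ((Nat.modEq_zero_iff_dvd).1 h8))
      refine ⟨r, hr, hrX, hrM, ?_⟩
      have h5 := (hb' r hr hrW).2 hrM
      have h6 : p ≡ b + 1 [MOD r] := hpb.of_dvd hrW
      have h7 : M * p + h * q ≡ (b' + (K * l + 1 + h)) * q [MOD r] := by
        calc M * p + h * q ≡ M * (b + 1) + h * q [MOD r] := (h6.mul_left M).add_right _
          _ ≡ (b' + (K * l + 1)) * q + h * q [MOD r] := h5.symm.add_right _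
          _ = (b' + (K * l + 1 + h)) * q := by ring
      exact (h7.dvd_iff (dvd_refl r)).2 (hrd.mul_right _)
  · by_cases hc : (b' + (K * l + 1 - h)).Coprime (Wm X)
    · obtain ⟨r, hr1, hr2, hr3, hr4⟩ := rough (K * l + 1 - h)
        ((mem_BT hi).2 ⟨mem_BB.2 ⟨by omega, by omega, hc⟩, h, h1, h2, Or.inr rfl⟩)
      exact ⟨r, hr1, hr2, hr3, (tq_neg hr1 hr2 (hq r hr1 hr2) (by omega)).1 hr4⟩
    · obtain ⟨r, hr, hrW, hrX, hrd⟩ := small _ hc
      have h4 : b' + (K * l + 1 - h) + h = b' + (K * l + 1) := by omega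
      have h4' : b' + (K * l + 1) ≡ h [MOD r] := by
        rw [← h4]
        have : b' + (K * l + 1 - h) ≡ 0 [MOD r] := (Nat.modEq_zero_iff_dvd).2 hrd
        simpa using this.add_right h
      have hrM : ¬ r ∣ M := by
        intro hrM
        have h5 := (hb' r hr hrW).1 hrM
        have h6 : h ≡ 0 [MOD r] := (Nat.modEq_zero_iff_dvd).2 (hMh r hr hrM)
        have h8 : 1 ≡ 0 [MOD r] := h5.symm.trans (h4'.trans h6)
        exact hr.one_lt.ne' (Nat.dvd_one.1 ((Nat.modEq_zero_iff_dvd).1 h8))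
      refine ⟨r, hr, hrX, hrM, ?_⟩
      have h5 := (hb' r hr hrW).2 hrM
      have h6 : p ≡ b + 1 [MOD r] := hpb.of_dvd hrW
      calc h * q ≡ (b' + (K * l + 1)) * q [MOD r] := h4'.symm.mul_right _
        _ ≡ M * (b + 1) [MOD r] := h5
        _ ≡ M * p [MOD r] := (h6.symm).mul_left M

end Pool.Agent.R502.TQ
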