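import Pool.Agent.R502.TQ.Thm
import Pool.Agent.R502.TW.Final

/-!
Primes as residue classes; rational multiples of primes.
-/

set_option autoImplicit false

open Finset Filter Topology

namespace Pool.Agent.R502.TQ

open Pool.Agent.H361R2.PP
open Pool.Agent.R526.AA
open Pool.Agent.R502.AQ
open Pool.Agent.R502.TW

theorem no_prime_of_GQ {X A q l r i n d a k c : ℕ} (hG : GQ X (A.factorial ^ 2) q l r i)
    (hn : n.Prime) (hnX : X < n) (hd1 : 1 ≤ d) (hdA : d ≤ A)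
    (hc : A.factorial ^ 2 = a * c) (hcr : ∀ t : ℕ, t.Prime → t ∣ A.factorial ^ 2 → t ∣ c)
    (h1 : i * l < k * c) (h2 : k * c ≤ (i + 1) * l) :
    d * n ≠ a * r + k * q ∧ d * n + a * r ≠ k * q ∧ d * n + k * q ≠ a * r := by
  have hdM : d ∣ A.factorial ^ 2 := (Nat.dvd_factorial hd1 hdA).trans (dvd_pow_self _ two_ne_zero)
  obtain ⟨⟨t, ht1, ht2, ht3, ht4⟩, ⟨t', ht1', ht2', ht3', ht4'⟩⟩ :=
    hG (k * c) h1 h2 (fun t ht htM => (hcr t ht htM).mul_left k)
  have fin : ∀ t : ℕ, t.Prime → t ≤ X → ¬ t ∣ A.factorial ^ 2 → ¬ t ∣ d * n := by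
    intro t ht htX htM hdvd
    rcases (ht.dvd_mul).1 hdvd with h3 | h3
    · exact htM (h3.trans hdM)
    · have := (Nat.prime_dvd_prime_iff_eq ht hn).1 h3
      omega
  have hco : Nat.Coprime t' c := by
    rw [Nat.Prime.coprime_iff_not_dvd ht1']
    intro h7
    exact ht3' (hc ▸ h7.mul_left a)
  refine ⟨?_, ?_, ?_⟩
  · intro heq
    have h5 : A.factorial ^ 2 * r + k * c * q = c * (d * n) := by
      rw [hc, heq]
      ring
    rw [h5] at ht4
    rcases (ht1.dvd_mul).1 ht4 with h7 | h7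
    · exact absurd (hc ▸ h7.mul_left a) ht3
    · exact fin t ht1 ht2 ht3 h7
  · intro heq
    have h5 : c * (d * n + a * r) ≡ c * (0 + a * r) [MOD t'] := by
      have e1 : c * (d * n + a * r) = k * c * q := by rw [heq]; ring
      have e2 : c * (0 + a * r) = A.factorial ^ 2 * r := by rw [hc]; ring
      rw [e1, e2]
      exact ht4'
    have h6 : d * n + a * r ≡ 0 + a * r [MOD t'] := Nat.ModEq.cancel_left_of_coprime hco h5
    have h7 : d * n ≡ 0 [MOD t'] := Nat.ModEq.add_right_cancel' _ h6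
    exact fin t' ht1' ht2' ht3' ((Nat.modEq_zero_iff_dvd).1 h7)
  · intro heq
    have h5 : c * (0 + k * q) ≡ c * (d * n + k * q) [MOD t'] := by
      have e1 : c * (0 + k * q) = k * c * q := by ring
      have e2 : c * (d * n + k * q) = A.factorial ^ 2 * r := by rw [hc, heq]; ring
      rw [e1, e2]
      exact ht4'
    have h6 : 0 + k * q ≡ d * n + k * q [MOD t'] := Nat.ModEq.cancel_left_of_coprime hco h5
    have h7 : 0 ≡ d * n [MOD t'] := Nat.ModEq.add_right_cancel' _ h6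
    exact fin t' ht1' ht2' ht3' ((Nat.modEq_zero_iff_dvd).1 h7.symm)

/-- `n / r` is not a fraction of height at most `A` modulo `q` -/
theorem no_fraction_class {X A l q r n : ℕ} {lam : ℝ} (hq : q.Prime) (hq3 : 3 ≤ q) (hXq : X < q)
    (hAq : A < q) (hr : r.Prime) (hrq : r < q) (hG : GQ X (A.factorial ^ 2) q l r 0)
    (hn : n.Prime) (hqn : q < n) (hnl : (n : ℝ) ≤ lam * q * Real.log q) (hlam : 0 < lam)
    (hl : (A * lam + A) * (A.factorial ^ 2 : ℕ) * Real.log q ≤ l) (d a : ℤ) (hd1 : 1 ≤ d)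
    (hdA : d ≤ A) (haA : |a| ≤ A) : ¬ (q : ℤ) ∣ d * n - a * r := by
  intro hdvd
  obtain ⟨m, hm⟩ := hdvd
  obtain ⟨D, rfl⟩ : ∃ D : ℕ, d = D := ⟨d.toNat, by omega⟩
  have hD1 : 1 ≤ D := by omega
  have hDA : D ≤ A := by omega
  have hq0 : (0 : ℤ) < q := by exact_mod_cast hq.pos
  obtain ⟨ha1, ha2⟩ := abs_le.1 haA
  have hane : a ≠ 0 := by
    intro h0
    rw [h0, zero_mul, sub_zero] at hm
    have h3 : (q : ℤ) ∣ ((D * n : ℕ) : ℤ) := ⟨m, by push_cast; exact hm⟩
    have h4 : q ∣ D * n := by exact_mod_cast h3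
    rcases (hq.dvd_mul).1 h4 with h5 | h5
    · have := Nat.le_of_dvd (by omega) h5
      omega
    · have := (Nat.prime_dvd_prime_iff_eq hq hn).1 h5
      omega
  obtain ⟨b, hb⟩ : ∃ b : ℕ, b = a.natAbs := ⟨_, rfl⟩
  have hb1 : 1 ≤ b := by omega
  have hbA : b ≤ A := by omega
  obtain ⟨k, hk⟩ : ∃ k : ℕ, k = m.natAbs := ⟨_, rfl⟩
  have hmne : m ≠ 0 := by
    intro h0
    rw [h0, mul_zero] at hm
    have h3 : (D : ℤ) * n = a * r := by linarith
    have hapos : 0 < a := by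
      have hr0 : (0 : ℤ) < r := by exact_mod_cast hr.pos
      have hn0 : (0 : ℤ) < n := by exact_mod_cast hn.pos
      have hD0 : (0 : ℤ) < D := by exact_mod_cast hD1
      have : 0 < a * r := by rw [← h3]; positivity
      exact pos_of_mul_pos_left this hr0.le
    have h4 : D * n = b * r := by
      have : ((D * n : ℕ) : ℤ) = ((b * r : ℕ) : ℤ) := by
        push_cast
        have : (b : ℤ) = a := by omega
        rw [this]
        exact h3
      exact_mod_cast this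
    have h5 : n ∣ b * r := ⟨D, by rw [← h4]; ring⟩
    rcases (hn.dvd_mul).1 h5 with h6 | h6
    · have := Nat.le_of_dvd (by omega) h6
      omega
    · have := Nat.le_of_dvd hr.pos h6
      omega
  have hk1 : 1 ≤ k := by omega
  obtain ⟨c, hc0, hc, hcr⟩ := ratio hb1 hbA
  have hqlog : 1 ≤ Real.log q := by
    have h3 : (3 : ℝ) ≤ q := by exact_mod_cast hq3
    rw [Real.le_log_iff_exp_le (by linarith)]
    have := Real.exp_one_lt_d9
    linarith
  have hq0' : (0 : ℝ) < q := by exact_mod_cast hq.pos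
  have hkb : (k : ℝ) ≤ (A * lam + A) * Real.log q := by
    have h3 : (k : ℝ) * q = |(D : ℝ) * n - a * r| := by
      have h4 : ((q : ℤ) * m : ℤ) = D * n - a * r := hm.symm
      have h5 : (((q : ℤ) * m : ℤ) : ℝ) = ((D * n - a * r : ℤ) : ℝ) := by rw [h4]
      push_cast at h5
      rw [← h5, abs_mul, abs_of_pos hq0', hk, Nat.cast_natAbs]
      push_cast
      ring
    have h4 : |(a : ℝ) * r| ≤ A * q := by
      rw [abs_mul]
      have h5 : |(a : ℝ)| ≤ A := by exact_mod_cast haA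
      have h6 : |(r : ℝ)| ≤ q := by
        rw [abs_of_nonneg (Nat.cast_nonneg _)]
        exact_mod_cast hrq.le
      exact mul_le_mul h5 h6 (abs_nonneg _) (Nat.cast_nonneg _)
    have h5 : (D : ℝ) * n ≤ A * (lam * q * Real.log q) := by
      have : (D : ℝ) ≤ A := by exact_mod_cast hDA
      apply mul_le_mul this hnl (Nat.cast_nonneg _) (Nat.cast_nonneg _)
    have h6 : |(D : ℝ) * n - a * r| ≤ D * n + |(a : ℝ) * r| := by
      refine (abs_sub _ _).trans ?_
      rw [abs_of_nonneg (show (0 : ℝ) ≤ D * n by positivity)]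
    have hA0 : (0 : ℝ) ≤ A := Nat.cast_nonneg _
    have h7 : (k : ℝ) * q ≤ ((A * lam + A) * Real.log q) * q := by
      have h8 : (A : ℝ) * q * 1 ≤ A * q * Real.log q :=
        mul_le_mul_of_nonneg_left hqlog (by positivity)
      nlinarith
    exact le_of_mul_le_mul_right h7 hq0'
  have hh2 : k * c ≤ (0 + 1) * l := by
    rw [zero_add, one_mul]
    have h3 : ((k * c : ℕ) : ℝ) ≤ l := by
      refine le_trans ?_ hl
      push_cast
      have h4 : (c : ℝ) ≤ ((A.factorial ^ 2 : ℕ) : ℝ) := by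
        rw [hc]
        exact_mod_cast Nat.le_mul_of_pos_left c hb1
      have h5 : (k : ℝ) * c ≤ ((A * lam + A) * Real.log q) * ((A.factorial ^ 2 : ℕ) : ℝ) :=
        mul_le_mul hkb h4 (Nat.cast_nonneg _) (by positivity)
      push_cast at h5
      linarith
    exact_mod_cast h3
  have hh1 : 0 * l < k * c := by
    rw [zero_mul]
    positivity
  obtain ⟨f1, f2, f3⟩ := no_prime_of_GQ (k := k) hG hn (by omega) hD1 hDA hc hcr hh1 hh2
  rcases lt_or_gt_of_ne hane with h3 | h3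
  · have hba : (b : ℤ) = -a := by omega
    rcases lt_or_gt_of_ne hmne with h4 | h4
    · have h5 : (0 : ℤ) ≤ D * n := by positivity
      have hr0 : (0 : ℤ) < r := by exact_mod_cast hr.pos
      nlinarith
    · have hkm : (k : ℤ) = m := by omega
      apply f2
      have : ((D * n + b * r : ℕ) : ℤ) = ((k * q : ℕ) : ℤ) := by
        push_cast
        rw [hba, hkm]
        linarith
      exact_mod_cast this
  · have hba : (b : ℤ) = a := by omega
    rcases lt_or_gt_of_ne hmne with h4 | h4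
    · have hkm : (k : ℤ) = -m := by omega
      apply f3
      have : ((D * n + k * q : ℕ) : ℤ) = ((b * r : ℕ) : ℤ) := by
        push_cast
        rw [hba, hkm]
        linarith
      exact_mod_cast this
    · have hkm : (k : ℤ) = m := by omega
      apply f1
      have : ((D * n : ℕ) : ℤ) = ((b * r + k * q : ℕ) : ℤ) := by
        push_cast
        rw [hba, hkm]
        linarith
      exact_mod_cast this

theorem SQ_mem_prime {X r : ℕ} (hX : 2 ≤ X) (hr : r.Prime) (h1 : X < r) (h2 : r ≤ 2 * X) :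
    r - 1 ∈ SQ X ∧ r - 1 + 1 = r := by
  have e1 : r - 1 + 1 = r := by omega
  have hp2' : r ≠ 2 * X := by
    rintro rfl
    exact Nat.not_prime_mul (by norm_num) (by omega) hr
  refine ⟨?_, e1⟩
  unfold SQ
  rw [mem_filter, mem_Ico, e1]
  exact ⟨⟨by omega, by omega⟩, hr⟩

/-- the parameters for a modulus `q` -/
theorem params (δ : ℝ) (hδ : 0 < δ) (X₀ : ℕ) : ∃ q₀ : ℕ, ∀ q : ℕ, q₀ ≤ q → ∀ X : ℕ,
    (q : ℝ) ^ δ ≤ X → X₀ ≤ X ∧ 16 ≤ X ∧ Real.log q ≤ (1 / δ) * Real.log X ∧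
      ((X * (2 * X) + X * q : ℕ) : ℝ) ≤ (X : ℝ) ^ (3 + 1 / δ) := by
  have t1 : Tendsto (fun x : ℝ => x ^ δ) atTop atTop := tendsto_rpow_atTop hδ
  obtain ⟨M₀, hM₀⟩ := eventually_atTop.1 ((t1.eventually_ge_atTop (max 16 (X₀ : ℝ))).and
    (eventually_ge_atTop (1 : ℝ)))
  refine ⟨⌈M₀⌉₊, fun q hq X hX => ?_⟩
  obtain ⟨e1, e2⟩ := hM₀ q ((Nat.le_ceil _).trans (by exact_mod_cast hq))
  have hX1 : (X₀ : ℝ) ≤ X := (le_max_right _ _).trans (e1.trans hX)
  have hX2 : (16 : ℝ) ≤ X := (le_max_left _ _).trans (e1.trans hX)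
  have hq0 : (0 : ℝ) < q := by linarith
  have hX0 : (0 : ℝ) < X := by linarith
  have h3 : δ * Real.log q ≤ Real.log X := by
    rw [← Real.log_rpow hq0]
    exact Real.log_le_log (by positivity) hX
  have h4 : (q : ℝ) ≤ (X : ℝ) ^ (1 / δ) := by
    calc (q : ℝ) = ((q : ℝ) ^ δ) ^ (1 / δ) := by
          rw [← Real.rpow_mul hq0.le, mul_one_div_cancel hδ.ne', Real.rpow_one]
      _ ≤ _ := Real.rpow_le_rpow (by positivity) hX (by positivity)
  refine ⟨by exact_mod_cast hX1, by exact_mod_cast hX2, ?_, ?_⟩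
  · rw [one_div, inv_mul_eq_div, le_div_iff₀ hδ]
    linarith
  · have h5 : (X : ℝ) ^ (3 + 1 / δ) = X * X * X * (X : ℝ) ^ (1 / δ) := by
      rw [Real.rpow_add hX0]
      congr 1
      have : (3 : ℝ) = ((3 : ℕ) : ℝ) := by norm_num
      rw [this, Real.rpow_natCast]
      ring
    rw [h5]
    have h6 : (1 : ℝ) ≤ (X : ℝ) ^ (1 / δ) := Real.one_le_rpow (by linarith) (by positivity)
    push_cast
    have h7 : (X : ℝ) * q ≤ X * (X : ℝ) ^ (1 / δ) := mul_le_mul_of_nonneg_left h4 hX0.le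
    have h8 : (X : ℝ) * (2 * X) ≤ X * (2 * X) * (X : ℝ) ^ (1 / δ) :=
      le_mul_of_one_le_right (by positivity) h6
    have h9 : (X : ℝ) * (2 * X) + X ≤ X * X * X := by nlinarith
    have h10 : (X * (2 * X) + X : ℝ) * (X : ℝ) ^ (1 / δ) ≤ X * X * X * (X : ℝ) ^ (1 / δ) :=
      mul_le_mul_of_nonneg_right h9 (by positivity)
    linarith

open Classical in
/-- a positive proportion of the prime classes -/
theorem classes_pos (δ lam : ℝ) (hδ : 0 < δ) (hlam : 0 < lam) (A : ℕ) :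
    ∃ c : ℝ, 0 < c ∧ ∃ q₀ : ℕ, ∀ q : ℕ, q₀ ≤ q → q.Prime → ∀ X : ℕ, (q : ℝ) ^ δ ≤ X →
      2 * X < q → c * Nat.primeCounting X ≤ (((Ioc X (2 * X)).filter (fun r : ℕ => r.Prime ∧
        ∀ n : ℕ, n.Prime → q < n → (n : ℝ) ≤ lam * q * Real.log q →
          ∀ d a : ℤ, 1 ≤ d → d ≤ A → |a| ≤ A → ¬ (q : ℤ) ∣ d * n - a * r)).card : ℝ) := by
  obtain ⟨M, hM⟩ : ∃ M, M = A.factorial ^ 2 := ⟨_, rfl⟩
  have hM0 : 0 < M := by rw [hM]; have := Nat.factorial_pos A; positivity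
  have hMr : (0 : ℝ) < M := by exact_mod_cast hM0
  have hA0 : (0 : ℝ) ≤ A := Nat.cast_nonneg _
  obtain ⟨κ, hκ⟩ : ∃ κ : ℝ, κ = (A * lam + A) * M := ⟨_, rfl⟩
  have hκ0 : 0 ≤ κ := by rw [hκ]; positivity
  obtain ⟨C, hC, hk⟩ := basicTq (κ * (1 / δ) + 1) 1 (3 + 1 / δ) (by positivity) one_pos le_rfl
    (by positivity)
  obtain ⟨X1, hb⟩ := hk 1 one_pos 1 M hM0
  obtain ⟨X2, hs⟩ := sizes
  obtain ⟨c, hc⟩ : ∃ c : ℝ, c = (1 - 1 / 4) ^ 2 / (1 + 1 / 8 + C / (1 : ℕ)) := ⟨_, rfl⟩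
  have hc0 : 0 < c := by rw [hc]; positivity
  obtain ⟨q1, hq1⟩ := params δ hδ (X1 + X2 + A)
  refine ⟨c / 4, by positivity, q1 + 3, fun q hq hqp X hXq hX2q => ?_⟩
  obtain ⟨p1, p2, p3, p4⟩ := hq1 q (by omega) X hXq
  have hX16 : (16 : ℝ) ≤ X := by exact_mod_cast p2
  have hXr : (0 : ℝ) < X := by linarith
  have hL : 1 ≤ Real.log X := by
    rw [Real.le_log_iff_exp_le hXr]
    have := Real.exp_one_lt_d9
    linarith
  have hLq : 0 ≤ Real.log q := Real.log_nonneg (by exact_mod_cast hqp.one_lt.le)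
  obtain ⟨l, hl⟩ : ∃ l : ℕ, l = ⌈κ * Real.log q⌉₊ := ⟨_, rfl⟩
  have hl1 : κ * Real.log q ≤ l := by rw [hl]; exact Nat.le_ceil _
  have hl2 : (l : ℝ) ≤ (κ * (1 / δ) + 1) * Real.log X := by
    have h4 := Nat.ceil_lt_add_one (show 0 ≤ κ * Real.log q by positivity)
    rw [← hl] at h4
    have h5 : κ * Real.log q ≤ κ * ((1 / δ) * Real.log X) := mul_le_mul_of_nonneg_left p3 hκ0
    linarith
  have hqX : ∀ t : ℕ, t.Prime → t ≤ X → ¬ t ∣ q := by
    intro t ht htX htd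
    have := (Nat.prime_dvd_prime_iff_eq ht hqp).1 htd
    omega
  have h4'' := hb X (by omega) q hqp.pos hqX (Or.inr hX2q) p4 l 0 hl2 (by omega)
  rw [← hc] at h4''
  have h4 : c * Pr X ≤ (((SQ X).filter (fun n => GQ X M q l (n + 1) 0)).card : ℝ) := by
    refine h4''.trans ?_
    apply Nat.cast_le.2
    apply card_le_card
    intro n hn
    rw [mem_filter] at hn ⊢
    refine ⟨hn.1, ?_⟩
    obtain ⟨i, hi, hG⟩ := hn.2
    have hi0 : 0 + i = 0 := by omega
    rwa [hi0] at hG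
  have h5 : (((SQ X).filter (fun n => GQ X M q l (n + 1) 0)).card : ℝ) ≤
      (((Ioc X (2 * X)).filter (fun r : ℕ => r.Prime ∧
        ∀ n : ℕ, n.Prime → q < n → (n : ℝ) ≤ lam * q * Real.log q →
          ∀ d a : ℤ, 1 ≤ d → d ≤ A → |a| ≤ A → ¬ (q : ℤ) ∣ d * n - a * r)).card : ℝ) := by
    apply Nat.cast_le.2
    apply card_le_card_of_injOn (fun n => n + 1)
    · intro n hn
      rw [mem_coe, mem_filter] at hn
      have hG := hn.2
      rw [hM] at hG
      have hS := hn.1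
      unfold SQ at hS
      rw [mem_filter, mem_Ico] at hS
      change n + 1 ∈ _
      rw [mem_coe, mem_filter, mem_Ioc]
      refine ⟨⟨by omega, by omega⟩, hS.2, ?_⟩
      intro n' hn' hpn hnl d a hd1 hdA haA
      refine no_fraction_class (X := X) (l := l) (lam := lam) hqp (by omega) (by omega) (by omega)
        hS.2 (by omega) hG hn' hpn hnl hlam ?_ d a hd1 hdA haA
      refine le_trans (le_of_eq ?_) hl1
      rw [hκ, hM]
    · intro a _ b _ h
      simp only at h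
      omega
  obtain ⟨-, s2, -⟩ := hs X (by omega)
  obtain ⟨s1, -, s3⟩ := hs X (by omega)
  have h6 : (Nat.primeCounting X : ℝ) ≤ 4 * Pr X := by linarith
  calc c / 4 * (Nat.primeCounting X : ℝ) ≤ c / 4 * (4 * Pr X) :=
        mul_le_mul_of_nonneg_left h6 (by positivity)
    _ = c * Pr X := by ring
    _ ≤ _ := h4.trans h5

open Classical in
/-- a generic form for almost all primes -/
theorem almost_core (lam ε Dx : ℝ) (hlam : 0 < lam) (hε : 0 < ε) (hDx0 : 0 ≤ Dx) (M : ℕ)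
    (hM0 : 0 < M) :
    ∃ c : ℝ, 0 < c ∧ ∃ K₀ : ℕ, ∀ K : ℕ, K₀ ≤ K → ∃ X₀ : ℕ, ∀ X : ℕ, X₀ ≤ X →
      ∀ q : ℕ, 0 < q → (∀ t : ℕ, t.Prime → t ≤ X → ¬ t ∣ q) → (q = 1 ∨ 2 * X < q) →
      ((X * (2 * X) + X * q : ℕ) : ℝ) ≤ (X : ℝ) ^ Dx →
      ∀ L : ℕ, (L : ℝ) ≤ lam * Real.log X →
      (((Ioc X (2 * X)).filter (fun r : ℕ => r.Prime ∧ (((range K).filter (fun i =>
        GQ X M q (L * M) r i)).card : ℝ) < c * K)).card : ℝ) ≤ ε * Nat.primeCounting X := by
  have hMr : (0 : ℝ) < M := by exact_mod_cast hM0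
  obtain ⟨ε₁, hε₁⟩ : ∃ e : ℝ, e = min ε 1 / 8 := ⟨_, rfl⟩
  have hε₁0 : 0 < ε₁ := by rw [hε₁]; positivity
  have hε₁1 : ε₁ ≤ 1 := by rw [hε₁]; have := min_le_right ε 1; linarith
  obtain ⟨C, hC, hkk⟩ := basicTq (lam * M) ε₁ Dx (by positivity) hε₁0 hε₁1 hDx0
  obtain ⟨k, hk⟩ := exists_nat_ge (8 * C / ε₁)
  have hk1 : 0 < k + 1 := Nat.succ_pos k
  have hgood : 1 - ε₁ ≤ (1 - ε₁ / 4) ^ 2 / (1 + ε₁ / 8 + C / ((k + 1 : ℕ) : ℝ)) := by
    apply eps_ineq hε₁0 hε₁1 (by positivity) le_rfl (by positivity)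
    rw [div_le_iff₀ (by positivity)]
    rw [div_le_iff₀ hε₁0] at hk
    push_cast
    nlinarith
  have hk0 : (0 : ℝ) < ((k + 1 : ℕ) : ℝ) := by exact_mod_cast hk1
  generalize k + 1 = k' at *
  refine ⟨1 / (4 * k'), by positivity, 2 * k', fun K hK => ?_⟩
  obtain ⟨X1, hb⟩ := hkk k' hk1 K M hM0
  obtain ⟨X2, hs⟩ := sizes
  refine ⟨X1 + X2 + 16, fun X hX q hq0 hq hq1 hDx L hL => ?_⟩
  set m := K / k' with hm
  have hmk : m * k' ≤ K := Nat.div_mul_le_self _ _
  have hm2 : 2 ≤ m := by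
    rw [hm, Nat.le_div_iff_mul_le hk1]
    exact hK
  have hmK : (K : ℝ) ≤ 2 * m * k' := by
    have h1 : K < (m + 1) * k' := by
      rw [hm, mul_comm]
      exact Nat.lt_mul_div_succ K hk1
    have h2 : K ≤ 2 * m * k' := by nlinarith
    exact_mod_cast h2
  have hLM : ((L * M : ℕ) : ℝ) ≤ lam * M * Real.log X := by
    push_cast
    calc (L : ℝ) * M ≤ (lam * Real.log X) * M := mul_le_mul_of_nonneg_right hL hMr.le
      _ = _ := by ring
  have hcard := SQ_card (X := X) (by omega)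
  have hPr : 0 ≤ Pr X := le_trans (Nat.cast_nonneg _) hcard
  have hav := avg (SQ X) (fun n i => GQ X M q (L * M) (n + 1) i) k' m K (by omega) hmk
    (1 / (4 * k')) (ε₁ * Pr X) (by
      rw [div_mul_eq_mul_div, one_mul, div_le_iff₀ (by positivity)]
      linarith) (by
    intro j hj
    have hjk : j * k' + k' ≤ K := by
      have h1 : (j + 1) * k' ≤ m * k' := Nat.mul_le_mul_right k' hj
      have h2 : (j + 1) * k' = j * k' + k' := by ring
      omega
    have h1 := hb X (by omega) q hq0 hq hq1 hDx (L * M) (j * k') hLM hjk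
    have htot := card_filter_add_card_filter_not (s := SQ X)
      (fun n => ∃ i < k', GQ X M q (L * M) (n + 1) (j * k' + i))
    have htot' : (((SQ X).filter
        (fun n => ∃ i < k', GQ X M q (L * M) (n + 1) (j * k' + i))).card : ℝ) +
        (((SQ X).filter
        (fun n => ¬ ∃ i < k', GQ X M q (L * M) (n + 1) (j * k' + i))).card : ℝ) = (SQ X).card := by
      exact_mod_cast htot
    have h3 : (1 - ε₁) * Pr X ≤ (((SQ X).filter
        (fun n => ∃ i < k', GQ X M q (L * M) (n + 1) (j * k' + i))).card : ℝ) :=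
      (mul_le_mul_of_nonneg_right hgood hPr).trans h1
    linarith)
  have h7 : (((Ioc X (2 * X)).filter (fun r : ℕ => r.Prime ∧ (((range K).filter (fun i =>
        GQ X M q (L * M) r i)).card : ℝ) < 1 / (4 * k') * K)).card : ℝ) ≤
      (((SQ X).filter (fun n => (((range K).filter
        (fun i => GQ X M q (L * M) (n + 1) i)).card : ℝ) < 1 / (4 * k') * K)).card : ℝ) := by
    apply Nat.cast_le.2
    apply card_le_card_of_injOn (fun p => p - 1)
    · intro p hp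
      rw [mem_coe, mem_filter, mem_Ioc] at hp
      obtain ⟨⟨hp1, hp2⟩, hpp, hp3⟩ := hp
      obtain ⟨e2, e1⟩ := SQ_mem_prime (by omega) hpp hp1 hp2
      change p - 1 ∈ _
      rw [mem_coe, mem_filter]
      refine ⟨e2, ?_⟩
      rw [e1]
      exact hp3
    · intro p hp q hq h
      rw [mem_coe, mem_filter, mem_Ioc] at hp hq
      simp only at h
      omega
  obtain ⟨-, s2, -⟩ := hs X (by omega)
  have h10 : ε₁ ≤ ε / 8 := by
    rw [hε₁]
    have := min_le_left ε 1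
    linarith
  have h11 : ε₁ * Pr X ≤ ε / 8 * (4 * Nat.primeCounting X) :=
    mul_le_mul h10 s2 hPr (by positivity)
  have h12 : (0 : ℝ) ≤ Nat.primeCounting X := Nat.cast_nonneg _
  linarith

end Pool.Agent.R502.TQ
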