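import Pool.Agent.R502.TQ.Fin

/-!
Final forms: almost all prime classes; rational multiples of primes.
-/

set_option autoImplicit false

open Finset Filter Topology

namespace Pool.Agent.R502.TQ

open Pool.Agent.H361R2.PP
open Pool.Agent.R526.AA
open Pool.Agent.R502.AQ
open Pool.Agent.R502.TW

open Classical in
/-- almost all prime classes -/
theorem classes_almost (δ lam ε : ℝ) (hδ : 0 < δ) (hlam : 0 < lam) (hε : 0 < ε) (A : ℕ) :
    ∃ c : ℝ, 0 < c ∧ ∃ K₀ : ℕ, ∀ K : ℕ, K₀ ≤ K → ∃ q₀ : ℕ, ∀ q : ℕ, q₀ ≤ q → q.Prime →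
      ∀ X : ℕ, (q : ℝ) ^ δ ≤ X → 2 * X < q → ∀ L : ℕ, (L : ℝ) ≤ lam * Real.log q →
      (((Ioc X (2 * X)).filter (fun r : ℕ => r.Prime ∧ (((range K).filter (fun i =>
        ∀ n d a k : ℕ, n.Prime → q < n → 1 ≤ d → d ≤ A → 1 ≤ a → a ≤ A →
          i * L * a < k → k ≤ (i + 1) * L * a →
          d * n ≠ k * q + a * r ∧ d * n ≠ k * q - a * r)).card : ℝ) < c * K)).card : ℝ) ≤
        ε * Nat.primeCounting X := by
  obtain ⟨M, hM⟩ : ∃ M, M = A.factorial ^ 2 := ⟨_, rfl⟩
  have hM0 : 0 < M := by rw [hM]; have := Nat.factorial_pos A; positivity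
  obtain ⟨c, hc, K₀, hK⟩ := almost_core (lam / δ) ε (3 + 1 / δ) (by positivity) hε (by positivity)
    M hM0
  refine ⟨c, hc, K₀, fun K hKK => ?_⟩
  obtain ⟨X₀, h0⟩ := hK K hKK
  obtain ⟨q₀, hq₀⟩ := params δ hδ X₀
  refine ⟨q₀ + 3, fun q hq hqp X hXq hX2q L hL => ?_⟩
  obtain ⟨p1, p2, p3, p4⟩ := hq₀ q (by omega) X hXq
  have hqX : ∀ t : ℕ, t.Prime → t ≤ X → ¬ t ∣ q := by
    intro t ht htX htd
    have := (Nat.prime_dvd_prime_iff_eq ht hqp).1 htd
    omega
  have hL' : (L : ℝ) ≤ lam / δ * Real.log X := by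
    refine hL.trans ?_
    calc lam * Real.log q ≤ lam * ((1 / δ) * Real.log X) := mul_le_mul_of_nonneg_left p3 hlam.le
      _ = _ := by ring
  refine le_trans ?_ (h0 X p1 q hqp.pos hqX (Or.inr hX2q) p4 L hL')
  apply Nat.cast_le.2
  apply card_le_card
  intro r hr
  rw [mem_filter] at hr ⊢
  refine ⟨hr.1, hr.2.1, lt_of_le_of_lt ?_ hr.2.2⟩
  apply Nat.cast_le.2
  apply card_le_card
  intro i hi
  rw [mem_filter] at hi ⊢
  refine ⟨hi.1, ?_⟩
  have hG := hi.2
  rw [hM] at hG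
  intro n d a k hn hqn hd1 hdA ha1 haA hk1 hk2
  obtain ⟨e, he0, he1, he2⟩ := ratio ha1 haA
  obtain ⟨f1, f2, -⟩ := no_prime_of_GQ (k := k) hG hn (by omega) hd1 hdA he1 he2 (by
      have h8 : i * (L * A.factorial ^ 2) = i * L * a * e := by
        rw [he1]
        ring
      rw [h8]
      exact Nat.mul_lt_mul_of_pos_right hk1 he0) (by
      have h8 : (i + 1) * (L * A.factorial ^ 2) = (i + 1) * L * a * e := by
        rw [he1]
        ring
      rw [h8]
      exact Nat.mul_le_mul_right _ hk2)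
  refine ⟨fun h9 => f1 (by omega), fun h9 => f2 ?_⟩
  have hn0 := hn.pos
  have : 0 < d * n := by positivity
  omega

open Classical in
/-- almost all primes: blocks near all rational multiples -/
theorem multiples_almost (lam ε : ℝ) (hlam : 0 < lam) (hε : 0 < ε) (A : ℕ) :
    ∃ c : ℝ, 0 < c ∧ ∃ K₀ : ℕ, ∀ K : ℕ, K₀ ≤ K → ∃ X₀ : ℕ, ∀ X : ℕ, X₀ ≤ X →
      ∀ L : ℕ, (L : ℝ) ≤ lam * Real.log X →
      (((Ioc X (2 * X)).filter (fun p : ℕ => p.Prime ∧ (((range K).filter (fun i =>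
        ∀ n d m k : ℕ, n.Prime → X < n → 1 ≤ d → d ≤ A → 1 ≤ m → m ≤ A →
          i * L * m < k → k ≤ (i + 1) * L * m →
          d * n ≠ m * p + k ∧ d * n ≠ m * p - k)).card : ℝ) < c * K)).card : ℝ) ≤
        ε * Nat.primeCounting X := by
  obtain ⟨M, hM⟩ : ∃ M, M = A.factorial ^ 2 := ⟨_, rfl⟩
  have hM0 : 0 < M := by rw [hM]; have := Nat.factorial_pos A; positivity
  obtain ⟨c, hc, K₀, hK⟩ := almost_core lam ε 4 hlam hε (by norm_num) M hM0
  refine ⟨c, hc, K₀, fun K hKK => ?_⟩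
  obtain ⟨X₀, h0⟩ := hK K hKK
  refine ⟨X₀ + 16, fun X hX L hL => ?_⟩
  have hX16 : (16 : ℝ) ≤ X := by exact_mod_cast (by omega : 16 ≤ X)
  have hDx : ((X * (2 * X) + X * 1 : ℕ) : ℝ) ≤ (X : ℝ) ^ (4 : ℝ) := by
    have h1 : (X : ℝ) ^ (4 : ℝ) = (X : ℝ) ^ 4 := by rw [← Real.rpow_natCast]; norm_num
    rw [h1]
    push_cast
    have h2 : (X : ℝ) * (2 * X) + X * 1 ≤ X ^ 3 := by nlinarith [mul_nonneg (by linarith : (0:ℝ) ≤ X) (by linarith : (0 : ℝ) ≤ (X : ℝ) - 4)]
    have h3 : (X : ℝ) ^ 3 ≤ X ^ 4 := pow_le_pow_right₀ (by linarith) (by norm_num)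
    linarith
  refine le_trans ?_ (h0 X (by omega) 1 one_pos (fun t ht _ htd => ht.one_lt.ne' (Nat.dvd_one.1 htd))
    (Or.inl rfl) hDx L hL)
  apply Nat.cast_le.2
  apply card_le_card
  intro r hr
  rw [mem_filter] at hr ⊢
  refine ⟨hr.1, hr.2.1, lt_of_le_of_lt ?_ hr.2.2⟩
  apply Nat.cast_le.2
  apply card_le_card
  intro i hi
  rw [mem_filter] at hi ⊢
  refine ⟨hi.1, ?_⟩
  have hG := hi.2
  rw [hM] at hG
  intro n d m k hn hXn hd1 hdA hm1 hmA hk1 hk2
  obtain ⟨e, he0, he1, he2⟩ := ratio hm1 hmA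
  obtain ⟨f1, f2, f3⟩ := no_prime_of_GQ (k := k) hG hn hXn hd1 hdA he1 he2 (by
      have h8 : i * (L * A.factorial ^ 2) = i * L * m * e := by
        rw [he1]
        ring
      rw [h8]
      exact Nat.mul_lt_mul_of_pos_right hk1 he0) (by
      have h8 : (i + 1) * (L * A.factorial ^ 2) = (i + 1) * L * m * e := by
        rw [he1]
        ring
      rw [h8]
      exact Nat.mul_le_mul_right _ hk2)
  refine ⟨fun h9 => f1 (by omega), fun h9 => f3 ?_⟩
  have hn0 := hn.pos
  have : 0 < d * n := by positivity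
  omega

open Classical in
/-- positive proportion of primes: all rational multiples `m p / d ≥ p` are isolated -/
theorem multiples_pos (lam : ℝ) (hlam : 0 < lam) (A : ℕ) :
    ∃ c : ℝ, 0 < c ∧ ∃ X₀ : ℕ, ∀ X : ℕ, X₀ ≤ X →
      c * Nat.primeCounting X ≤ (((Icc 1 X).filter (fun p : ℕ => p.Prime ∧
        ∀ n d m : ℕ, n.Prime → 1 ≤ d → d ≤ m → m ≤ A →
          |(d : ℝ) * n - m * p| ≤ lam * Real.log p → n = p)).card : ℝ) := by
  obtain ⟨M, hM⟩ : ∃ M, M = A.factorial ^ 2 := ⟨_, rfl⟩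
  have hM0 : 0 < M := by rw [hM]; have := Nat.factorial_pos A; positivity
  have hMr : (0 : ℝ) < M := by exact_mod_cast hM0
  obtain ⟨κ, hκ⟩ : ∃ κ : ℝ, κ = lam * M := ⟨_, rfl⟩
  have hκ0 : 0 < κ := by rw [hκ]; positivity
  obtain ⟨C, hC, hk⟩ := basicTq (2 * κ + 1) 1 4 (by positivity) one_pos le_rfl (by norm_num)
  obtain ⟨X1, hb⟩ := hk 1 one_pos 1 M hM0
  obtain ⟨X2, hs⟩ := sizes
  obtain ⟨c, hc⟩ : ∃ c : ℝ, c = (1 - 1 / 4) ^ 2 / (1 + 1 / 8 + C / (1 : ℕ)) := ⟨_, rfl⟩
  have hc0 : 0 < c := by rw [hc]; positivity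
  -- sizes
  have hl2 : ∀ᶠ x : ℝ in atTop, (2 * lam + 2) * Real.log x ^ 2 ≤ c / 4 * x := by
    have h3 := (isLittleO_log_rpow_atTop (show (0 : ℝ) < 1 / 2 by norm_num)).def
      (show (0 : ℝ) < Real.sqrt (c / (4 * (2 * lam + 2))) by positivity)
    filter_upwards [h3, eventually_gt_atTop (1 : ℝ)] with x hx hx1
    have hl : 0 < Real.log x := Real.log_pos hx1
    rw [Real.norm_eq_abs, abs_of_pos hl, Real.norm_eq_abs,
      abs_of_nonneg (Real.rpow_nonneg (by linarith) _)] at hx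
    have h4 : Real.log x ^ 2 ≤ (Real.sqrt (c / (4 * (2 * lam + 2))) * x ^ (1 / 2 : ℝ)) ^ 2 :=
      pow_le_pow_left₀ hl.le hx 2
    rw [mul_pow, Real.sq_sqrt (by positivity), ← Real.rpow_natCast (x ^ (1 / 2 : ℝ)) 2,
      ← Real.rpow_mul (by linarith)] at h4
    norm_num at h4
    calc (2 * lam + 2) * Real.log x ^ 2 ≤ (2 * lam + 2) * (c / (4 * (2 * lam + 2)) * x) :=
          mul_le_mul_of_nonneg_left h4 (by positivity)
      _ = c / 4 * x := by field_simp
  obtain ⟨M₁, hM₁⟩ := eventually_atTop.1 hl2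
  refine ⟨c / 32, by positivity, 3 * (X1 + X2 + A + ⌈M₁⌉₊ + 16), fun Z hZ => ?_⟩
  obtain ⟨X, hX⟩ : ∃ X, X = Z / 2 := ⟨_, rfl⟩
  have hX2 : 2 * X ≤ Z := by omega
  have hX3 : Z ≤ 2 * X + 1 := by omega
  have hXX : X1 + X2 + A + ⌈M₁⌉₊ + 16 ≤ X := by omega
  have hX16 : (16 : ℝ) ≤ X := by exact_mod_cast (by omega : 16 ≤ X)
  have hXr : (0 : ℝ) < X := by linarith
  have hXM : M₁ ≤ X := (Nat.le_ceil _).trans (by exact_mod_cast (by omega : ⌈M₁⌉₊ ≤ X))
  have hsz := hM₁ X hXM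
  have hL : 1 ≤ Real.log X := by
    rw [Real.le_log_iff_exp_le hXr]
    have := Real.exp_one_lt_d9
    linarith
  have hL2 : Real.log (2 * X) ≤ 2 * Real.log X := by
    calc Real.log (2 * X) ≤ Real.log ((X : ℝ) * X) := Real.log_le_log (by positivity) (by nlinarith)
      _ = 2 * Real.log X := by rw [Real.log_mul hXr.ne' hXr.ne']; ring
  obtain ⟨l, hl⟩ : ∃ l : ℕ, l = ⌈κ * Real.log (2 * X)⌉₊ := ⟨_, rfl⟩
  have hl1 : κ * Real.log (2 * X) ≤ l := by rw [hl]; exact Nat.le_ceil _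
  have hL0 : 0 ≤ Real.log (2 * X) := Real.log_nonneg (by linarith)
  have hl2 : (l : ℝ) ≤ (2 * κ + 1) * Real.log X := by
    have h4 := Nat.ceil_lt_add_one (show 0 ≤ κ * Real.log (2 * X) by positivity)
    rw [← hl] at h4
    have h5 : κ * Real.log (2 * X) ≤ κ * (2 * Real.log X) :=
      mul_le_mul_of_nonneg_left hL2 (by positivity)
    linarith
  have hDx : ((X * (2 * X) + X * 1 : ℕ) : ℝ) ≤ (X : ℝ) ^ (4 : ℝ) := by
    have h1 : (X : ℝ) ^ (4 : ℝ) = (X : ℝ) ^ 4 := by rw [← Real.rpow_natCast]; norm_num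
    rw [h1]
    push_cast
    have h2 : (X : ℝ) * (2 * X) + X * 1 ≤ X ^ 3 := by nlinarith [mul_nonneg (by linarith : (0:ℝ) ≤ X) (by linarith : (0 : ℝ) ≤ (X : ℝ) - 4)]
    have h3 : (X : ℝ) ^ 3 ≤ X ^ 4 := pow_le_pow_right₀ (by linarith) (by norm_num)
    linarith
  have h4'' := hb X (by omega) 1 one_pos (fun t ht _ htd => ht.one_lt.ne' (Nat.dvd_one.1 htd))
    (Or.inl rfl) hDx l 0 hl2 (by omega)
  rw [← hc] at h4''
  obtain ⟨E, hE⟩ : ∃ E : ℕ, E = ⌈lam * Real.log (2 * X)⌉₊ := ⟨_, rfl⟩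
  have hE1 : lam * Real.log (2 * X) ≤ E := by rw [hE]; exact Nat.le_ceil _
  have hE2 : (E : ℝ) ≤ (2 * lam + 1) * Real.log X := by
    have h4 := Nat.ceil_lt_add_one (show 0 ≤ lam * Real.log (2 * X) by positivity)
    rw [← hE] at h4
    have h5 : lam * Real.log (2 * X) ≤ lam * (2 * Real.log X) :=
      mul_le_mul_of_nonneg_left hL2 hlam.le
    linarith
  obtain ⟨s1, -, -⟩ := hs X (by omega)
  obtain ⟨-, -, s3⟩ := hs Z (by omega)
  have hE3 : ((E : ℕ) : ℝ) ≤ c / 2 * Pr X := by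
    have h6 : ((E : ℕ) : ℝ) * Real.log X ≤ c / 4 * X := by
      have h7 : (E : ℝ) * Real.log X ≤ ((2 * lam + 1) * Real.log X) * Real.log X :=
        mul_le_mul_of_nonneg_right hE2 (by linarith)
      nlinarith
    have h7 : ((E : ℕ) : ℝ) ≤ c / 4 * X / Real.log X := by
      rw [le_div_iff₀ (by linarith)]
      exact h6
    have h8 : c / 4 * X / Real.log X = c / 2 * (X / Real.log X / 2) := by ring
    rw [h8] at h7
    exact h7.trans (mul_le_mul_of_nonneg_left s1 (by positivity))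
  have h4 : c * Pr X ≤ (((SQ X).filter (fun n => GQ X M 1 l (n + 1) 0)).card : ℝ) := by
    refine h4''.trans ?_
    apply Nat.cast_le.2
    apply card_le_card
    intro n hn
    rw [mem_filter] at hn ⊢
    refine ⟨hn.1, ?_⟩
    obtain ⟨i, hi, hG⟩ := hn.2
    have hi0 : 0 + i = 0 := by omega
    rwa [hi0] at hG
  have h5 : ((SQ X).filter (fun n => GQ X M 1 l (n + 1) 0)).card ≤
      ((Icc 1 Z).filter (fun p : ℕ => p.Prime ∧
        ∀ n d m : ℕ, n.Prime → 1 ≤ d → d ≤ m → m ≤ A →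
          |(d : ℝ) * n - m * p| ≤ lam * Real.log p → n = p)).card +
      ((SQ X).filter (fun n => ¬ X + E < n + 1)).card := by
    have h6 : ((SQ X).filter (fun n => GQ X M 1 l (n + 1) 0)) ⊆
        ((SQ X).filter (fun n => GQ X M 1 l (n + 1) 0 ∧ X + E < n + 1)) ∪
        ((SQ X).filter (fun n => ¬ X + E < n + 1)) := by
      intro n hn
      rw [mem_filter] at hn
      rw [mem_union, mem_filter, mem_filter]
      tauto
    refine (card_le_card h6).trans ((card_union_le _ _).trans (Nat.add_le_add_right ?_ _))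
    apply card_le_card_of_injOn (fun n => n + 1)
    · intro r0 hr0
      rw [mem_coe, mem_filter] at hr0
      obtain ⟨hS, hG, hXE⟩ := hr0
      rw [hM] at hG
      unfold SQ at hS
      rw [mem_filter, mem_Ico] at hS
      change r0 + 1 ∈ _
      obtain ⟨p, hp⟩ : ∃ p, p = r0 + 1 := ⟨_, rfl⟩
      rw [← hp] at hG hS hXE ⊢
      have hp2X : p ≤ 2 * X := by omega
      rw [mem_coe, mem_filter, mem_Icc]
      refine ⟨⟨hS.2.pos, by omega⟩, hS.2, ?_⟩
      intro n d m hn hd1 hdm hmA hnear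
      have hp0 : (0 : ℝ) < p := by exact_mod_cast hS.2.pos
      have hplog : Real.log p ≤ Real.log (2 * X) := Real.log_le_log hp0 (by exact_mod_cast hp2X)
      have hnear2 : |(d : ℝ) * n - m * p| ≤ E :=
        hnear.trans ((mul_le_mul_of_nonneg_left hplog hlam.le).trans hE1)
      obtain ⟨k, hk⟩ : ∃ k : ℕ, k = ((d : ℤ) * n - m * p).natAbs := ⟨_, rfl⟩
      have hkR : (k : ℝ) = |(d : ℝ) * n - m * p| := by
        rw [hk, Nat.cast_natAbs]
        push_cast
        rfl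
      have hkE : k ≤ E := by
        have : (k : ℝ) ≤ E := by rw [hkR]; exact hnear2
        exact_mod_cast this
      have hdp : d * p ≤ m * p := Nat.mul_le_mul_right _ hdm
      have hXn : X < n := by
        by_contra hcon
        push Not at hcon
        have h7 : d * n ≤ d * X := Nat.mul_le_mul_left _ hcon
        have h8 : d * (X + E + 1) ≤ d * p := Nat.mul_le_mul_left _ hXE
        have h9 : d * (X + E + 1) = d * X + d * (E + 1) := by ring
        have h10 : E + 1 ≤ d * (E + 1) := Nat.le_mul_of_pos_left _ hd1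
        have h11 : (k : ℤ) = |(d : ℤ) * n - m * p| := by rw [hk]; exact Int.natCast_natAbs _
        have h12 : -(k : ℤ) ≤ (d : ℤ) * n - m * p := by
          rw [h11]
          exact neg_abs_le _
        have h13 : ((m * p : ℕ) : ℤ) - k ≤ ((d * n : ℕ) : ℤ) := by
          push_cast
          linarith
        omega
      rcases Nat.eq_zero_or_pos k with hk0 | hk0
      · have h7 : (d : ℤ) * n - m * p = 0 := by
          rw [hk0] at hk
          exact Int.natAbs_eq_zero.1 hk.symm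
        have h8 : d * n = m * p := by
          have : ((d * n : ℕ) : ℤ) = ((m * p : ℕ) : ℤ) := by
            push_cast
            linarith
          exact_mod_cast this
        have h9 : n ∣ m * p := ⟨d, by rw [← h8]; ring⟩
        rcases (hn.dvd_mul).1 h9 with h10 | h10
        · have := Nat.le_of_dvd (by omega) h10
          omega
        · exact (Nat.prime_dvd_prime_iff_eq hn hS.2).1 h10
      · exfalso
        obtain ⟨e, he0, he1, he2⟩ := ratio (show 1 ≤ m by omega) hmA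
        have hkl : k * e ≤ l := by
          have h7 : ((k * e : ℕ) : ℝ) ≤ l := by
            refine le_trans ?_ hl1
            push_cast
            have h8 : (e : ℝ) ≤ M := by
              rw [hM, he1]
              exact_mod_cast Nat.le_mul_of_pos_left e (by omega)
            have h9 : (k : ℝ) ≤ lam * Real.log (2 * X) := by
              rw [hkR]
              exact hnear.trans (mul_le_mul_of_nonneg_left hplog hlam.le)
            calc (k : ℝ) * e ≤ (lam * Real.log (2 * X)) * M :=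
                  mul_le_mul h9 h8 (Nat.cast_nonneg _) (by positivity)
              _ = κ * Real.log (2 * X) := by rw [hκ]; ring
          exact_mod_cast h7
        obtain ⟨f1, f2, f3⟩ := no_prime_of_GQ (k := k) hG hn hXn hd1 (by omega) he1 he2
          (by rw [zero_mul]; positivity) (by rw [zero_add, one_mul]; exact hkl)
        have h11 : (k : ℤ) = |(d : ℤ) * n - m * p| := by rw [hk]; exact Int.natCast_natAbs _
        rcases abs_choice ((d : ℤ) * n - m * p) with h12 | h12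
        · apply f1
          have : ((d * n : ℕ) : ℤ) = ((m * p + k * 1 : ℕ) : ℤ) := by
            push_cast
            rw [h11, h12]
            ring
          exact_mod_cast this
        · apply f3
          have : ((d * n + k * 1 : ℕ) : ℤ) = ((m * p : ℕ) : ℤ) := by
            push_cast
            rw [h11, h12]
            ring
          exact_mod_cast this
    · intro a _ b _ h
      simp only at h
      omega
  have h5' : (((SQ X).filter (fun n => GQ X M 1 l (n + 1) 0)).card : ℝ) ≤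
      (((Icc 1 Z).filter (fun p : ℕ => p.Prime ∧
        ∀ n d m : ℕ, n.Prime → 1 ≤ d → d ≤ m → m ≤ A →
          |(d : ℝ) * n - m * p| ≤ lam * Real.log p → n = p)).card : ℝ) +
      (((SQ X).filter (fun n => ¬ X + E < n + 1)).card : ℝ) := by
    exact_mod_cast h5
  have h6 := few_small X E
  have hZr : (Z : ℝ) ≤ 4 * X := by exact_mod_cast (by omega : Z ≤ 4 * X)
  have hXZ : (X : ℝ) ≤ Z := by exact_mod_cast (by omega : X ≤ Z)
  have hlog : Real.log X ≤ Real.log Z := Real.log_le_log hXr hXZ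
  have h7 : (Z : ℝ) / Real.log Z ≤ 4 * (X / Real.log X) := by
    rw [mul_div_assoc', div_le_div_iff₀ (by linarith) (by linarith)]
    have h6 : (Z : ℝ) * Real.log X ≤ (4 * X) * Real.log X :=
      mul_le_mul_of_nonneg_right hZr (by linarith)
    have h7 : (4 * X : ℝ) * Real.log X ≤ (4 * X) * Real.log Z :=
      mul_le_mul_of_nonneg_left hlog (by linarith)
    linarith
  have h8 : (Nat.primeCounting Z : ℝ) ≤ 16 * Pr X := by linarith
  have h9 : c / 32 * (Nat.primeCounting Z : ℝ) ≤ c / 32 * (16 * Pr X) :=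
    mul_le_mul_of_nonneg_left h8 (by positivity)
  linarith

end Pool.Agent.R502.TQ
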